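import Pool.Agent.H44.MS.Targets

/-!
# The least coordinate in a representation by three squares: basic lemmas
-/

set_option autoImplicit false

namespace Pool.Agent.H44.MS

open Finset Real

/-! ## Indicators -/

theorem ic_pos {p : Prop} (h : p) : ic p = 1 := by
  classical
  unfold ic
  rw [if_pos h]

theorem ic_neg {p : Prop} (h : ¬ p) : ic p = 0 := by
  classical
  unfold ic
  rw [if_neg h]

theorem ic_eq_ite (p : Prop) [Decidable p] : ic p = if p then 1 else 0 := by
  by_cases h : p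
  · rw [ic_pos h, if_pos h]
  · rw [ic_neg h, if_neg h]

theorem ic_nonneg (p : Prop) : 0 ≤ ic p := by
  by_cases h : p
  · rw [ic_pos h]; exact zero_le_one
  · rw [ic_neg h]

theorem ic_le_one (p : Prop) : ic p ≤ 1 := by
  by_cases h : p
  · rw [ic_pos h]
  · rw [ic_neg h]; exact zero_le_one

theorem abs_ic (p : Prop) : |ic p| = ic p := abs_of_nonneg (ic_nonneg p)

theorem abs_ic_le (p : Prop) : |ic p| ≤ 1 := by rw [abs_ic]; exact ic_le_one p

theorem ic_and (p q : Prop) : ic (p ∧ q) = ic p * ic q := by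
  by_cases hp : p
  · by_cases hq : q
    · rw [ic_pos hp, ic_pos hq, ic_pos ⟨hp, hq⟩, one_mul]
    · rw [ic_neg hq, ic_neg (fun h => hq h.2), mul_zero]
  · rw [ic_neg hp, ic_neg (fun h => hp h.1), zero_mul]

theorem ic_not (p : Prop) : ic (¬ p) = 1 - ic p := by
  by_cases hp : p
  · rw [ic_pos hp, ic_neg (fun h => h hp), sub_self]
  · rw [ic_neg hp, ic_pos hp, sub_zero]

theorem ic_mul_self (p : Prop) : ic p * ic p = ic p := by
  rw [← ic_and, and_self]

theorem ic_sq (p : Prop) : ic p ^ 2 = ic p := by rw [sq, ic_mul_self]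

theorem ic_congr {p q : Prop} (h : p ↔ q) : ic p = ic q := by rw [propext h]

theorem ic_mono {p q : Prop} (h : p → q) : ic p ≤ ic q := by
  by_cases hp : p
  · rw [ic_pos hp, ic_pos (h hp)]
  · rw [ic_neg hp]; exact ic_nonneg q

theorem ic_true : ic True = 1 := ic_pos trivial

theorem ic_false : ic False = 0 := ic_neg id

theorem ic_ne_zero {p : Prop} (h : ic p ≠ 0) : p := by
  by_contra hp
  exact h (ic_neg hp)

theorem sum_ic_mul {ι : Type*} (s : Finset ι) (p : ι → Prop) [DecidablePred p] (f : ι → ℝ) :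
    ∑ x ∈ s, ic (p x) * f x = ∑ x ∈ s.filter p, f x := by
  rw [Finset.sum_filter]
  refine Finset.sum_congr rfl (fun x _ => ?_)
  rw [ic_eq_ite (p x)]
  split_ifs <;> simp

theorem sum_ic {ι : Type*} (s : Finset ι) (p : ι → Prop) [DecidablePred p] :
    ∑ x ∈ s, ic (p x) = ((s.filter p).card : ℝ) := by
  have h := sum_ic_mul s p (fun _ => (1 : ℝ))
  simp only [mul_one] at h
  rw [h]
  simp

/-! ## The character -/

theorem chi_eq (n : ℕ) : chi n = if n % 4 = 1 then 1 else if n % 4 = 3 then -1 else 0 := by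
  unfold chi
  rw [ZMod.χ₄_nat_eq_if_mod_four]
  have h4 : n % 4 < 4 := Nat.mod_lt _ (by norm_num)
  have h2 : n % 2 = n % 4 % 2 := by omega
  rw [h2]
  interval_cases h : n % 4 <;> norm_num

theorem chi_one : chi 1 = 1 := by rw [chi_eq]; norm_num

theorem chi_zero : chi 0 = 0 := by rw [chi_eq]; norm_num

theorem chi_mul (m n : ℕ) : chi (m * n) = chi m * chi n := by
  unfold chi
  push_cast
  rw [map_mul]
  push_cast
  ring

theorem abs_chi_le (n : ℕ) : |chi n| ≤ 1 := by
  rw [chi_eq]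
  split_ifs <;> norm_num

theorem chi_le_one (n : ℕ) : chi n ≤ 1 := (abs_le.1 (abs_chi_le n)).2

theorem neg_one_le_chi (n : ℕ) : -1 ≤ chi n := (abs_le.1 (abs_chi_le n)).1

theorem chi_sq_of_odd {n : ℕ} (h : n % 2 = 1) : chi n * chi n = 1 := by
  have h4 : n % 4 = 1 ∨ n % 4 = 3 := by omega
  rcases h4 with h4 | h4
  · rw [chi_eq, if_pos h4]; norm_num
  · rw [chi_eq, if_neg (by omega), if_pos h4]; norm_num

theorem chi_of_one {n : ℕ} (h : n % 4 = 1) : chi n = 1 := by rw [chi_eq, if_pos h]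

theorem chi_of_three {n : ℕ} (h : n % 4 = 3) : chi n = -1 := by
  rw [chi_eq, if_neg (by omega), if_pos h]

theorem chi_of_even {n : ℕ} (h : n % 2 = 0) : chi n = 0 := by
  rw [chi_eq, if_neg (by omega), if_neg (by omega)]

/-- If `e * f ≡ 1 mod 4` then `chi e = chi f`. -/
theorem chi_eq_of_mul {e f : ℕ} (h : (e * f) % 4 = 1) : chi e = chi f := by
  have h1 : chi e * chi f = 1 := by rw [← chi_mul, chi_of_one h]
  have h2 : e % 2 = 1 := by
    rcases Nat.even_or_odd e with he | he
    · obtain ⟨k, hk⟩ := he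
      have : (e * f) % 2 = 0 := by
        rw [hk, show (k + k) * f = 2 * (k * f) by ring]
        omega
      omega
    · exact Nat.odd_iff.1 he
  have h3 := chi_sq_of_odd h2
  have h4 : chi e * (chi e * chi f) = chi e := by rw [h1, mul_one]
  rw [← mul_assoc, h3, one_mul] at h4
  exact h4.symm

/-! ## The Moebius function -/

theorem mu_one : mu 1 = 1 := by simp [mu]

theorem abs_mu_le (n : ℕ) : |mu n| ≤ 1 := by
  unfold mu
  have h := ArithmeticFunction.abs_moebius_le_one (n := n)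
  exact_mod_cast h

theorem mu_mul {m n : ℕ} (h : Nat.Coprime m n) : mu (m * n) = mu m * mu n := by
  unfold mu
  rw [ArithmeticFunction.isMultiplicative_moebius.map_mul_of_coprime h]
  push_cast
  ring

theorem mu_of_squarefree {n : ℕ} (h : Squarefree n) : mu n = (-1) ^ n.primeFactors.card := by
  unfold mu
  rw [ArithmeticFunction.moebius_apply_of_squarefree h,
    (ArithmeticFunction.cardDistinctFactors_eq_cardFactors_iff_squarefree h.ne_zero).2 h |>.symm,
    ArithmeticFunction.cardDistinctFactors_apply]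
  push_cast
  rfl

/-! ## Rough, smooth and good numbers -/

theorem rough_one (z : ℕ) : Rough z 1 := fun p hp h =>
  absurd (Nat.dvd_one.1 h) hp.one_lt.ne'

theorem smooth_one (z : ℕ) : Smooth z 1 := fun p hp h =>
  absurd (Nat.dvd_one.1 h) hp.one_lt.ne'

theorem good_one (y z : ℕ) : Good y z 1 := fun p hp _ _ _ h =>
  absurd (Nat.dvd_one.1 h) hp.one_lt.ne'

theorem rough_mul (z a b : ℕ) : Rough z (a * b) ↔ Rough z a ∧ Rough z b := by
  constructor
  · intro h
    exact ⟨fun p hp hd => h p hp (hd.mul_right b), fun p hp hd => h p hp (hd.mul_left a)⟩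
  · rintro ⟨h1, h2⟩ p hp hd
    rcases hp.dvd_mul.1 hd with h | h
    · exact h1 p hp h
    · exact h2 p hp h

theorem smooth_mul (z a b : ℕ) : Smooth z (a * b) ↔ Smooth z a ∧ Smooth z b := by
  constructor
  · intro h
    exact ⟨fun p hp hd => h p hp (hd.mul_right b), fun p hp hd => h p hp (hd.mul_left a)⟩
  · rintro ⟨h1, h2⟩ p hp hd
    rcases hp.dvd_mul.1 hd with h | h
    · exact h1 p hp h
    · exact h2 p hp h

theorem good_mul (y z a b : ℕ) : Good y z (a * b) ↔ Good y z a ∧ Good y z b := by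
  constructor
  · intro h
    exact ⟨fun p hp h3 h1 h2 hd => h p hp h3 h1 h2 (hd.mul_right b),
      fun p hp h3 h1 h2 hd => h p hp h3 h1 h2 (hd.mul_left a)⟩
  · rintro ⟨h1, h2⟩ p hp h3 h4 h5 hd
    rcases hp.dvd_mul.1 hd with h | h
    · exact h1 p hp h3 h4 h5 h
    · exact h2 p hp h3 h4 h5 h

theorem rough_dvd {z a b : ℕ} (h : Rough z b) (hab : a ∣ b) : Rough z a :=
  fun p hp hd => h p hp (hd.trans hab)

theorem smooth_dvd {z a b : ℕ} (h : Smooth z b) (hab : a ∣ b) : Smooth z a :=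
  fun p hp hd => h p hp (hd.trans hab)

theorem good_dvd {y z a b : ℕ} (h : Good y z b) (hab : a ∣ b) : Good y z a :=
  fun p hp h3 h1 h2 hd => h p hp h3 h1 h2 (hd.trans hab)

theorem good_of_rough {y z a : ℕ} (h : Rough z a) : Good y z a :=
  fun p hp _ _ h2 hd => absurd (h p hp hd) (not_lt.2 h2)

theorem odd_of_rough {z a : ℕ} (hz : 2 ≤ z) (h : Rough z a) : a % 2 = 1 := by
  by_contra hn
  have h0 : 2 ∣ a := Nat.dvd_of_mod_eq_zero (by omega)
  exact absurd (h 2 Nat.prime_two h0) (by omega)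

/-- A rough number is `1` or larger than `z`. -/
theorem rough_lt {z a : ℕ} (h : Rough z a) (h0 : a ≠ 0) (h1 : a ≠ 1) : z < a := by
  obtain ⟨p, hp, hd⟩ := Nat.exists_prime_and_dvd h1
  exact lt_of_lt_of_le (h p hp hd) (Nat.le_of_dvd (Nat.pos_of_ne_zero h0) hd)

theorem coprime_of_smooth_rough {z a b : ℕ} (ha : Smooth z a) (hb : Rough z b) :
    Nat.Coprime a b := by
  refine Nat.coprime_of_dvd ?_
  intro p hp hpa hpb
  exact absurd (ha p hp hpa) (not_le.2 (hb p hp hpb))

theorem good_iff_sv (y z m : ℕ) : Good y z m ↔ Sv (A3 y) z m := by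
  constructor
  · intro h p hp hA hz
    exact h p hp hA.1 hA.2 hz
  · intro h p hp h3 hy hz
    exact h p hp ⟨h3, hy⟩ hz

theorem rough_iff_sv (z m : ℕ) : Rough z m ↔ Sv (fun _ => True) z m := by
  constructor
  · intro h p hp _ hz hd
    exact absurd (h p hp hd) (not_lt.2 hz)
  · intro h p hp hd
    by_contra hn
    exact h p hp trivial (not_lt.1 hn) hd

theorem an_smooth {A : ℕ → Prop} {z d : ℕ} (h : An A z d) : Smooth z d :=
  fun p hp hd => (h.2 p hp hd).2

theorem an_one (A : ℕ → Prop) (z : ℕ) : An A z 1 :=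
  ⟨squarefree_one, fun p hp h => absurd (Nat.dvd_one.1 h) hp.one_lt.ne'⟩

theorem an_dvd {A : ℕ → Prop} {z a b : ℕ} (h : An A z b) (hab : a ∣ b) : An A z a :=
  ⟨h.1.squarefree_of_dvd hab, fun p hp hd => h.2 p hp (hd.trans hab)⟩

theorem abs_lam_le (A : ℕ → Prop) (s z d : ℕ) : |lam A s z d| ≤ 1 := by
  unfold lam
  rw [abs_mul, abs_ic]
  exact mul_le_one₀ (ic_le_one _) (abs_nonneg _) (abs_mu_le d)

theorem abs_kap_le (A : ℕ → Prop) (s z d : ℕ) : |kap A s z d| ≤ 1 := by
  unfold kap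
  rw [abs_neg, abs_mul, abs_ic]
  exact mul_le_one₀ (ic_le_one _) (abs_nonneg _) (abs_mu_le d)

/-! ## The rough part and the smooth part -/

theorem rp_eq (z n : ℕ) : rp z n = n.factorization.prod (fun p k => if z < p then p ^ k else 1) := by
  unfold rp
  rw [Finsupp.prod, Nat.support_factorization, Finset.prod_filter]

theorem sp_eq (z n : ℕ) : sp z n = n.factorization.prod (fun p k => if p ≤ z then p ^ k else 1) := by
  unfold sp
  rw [Finsupp.prod, Nat.support_factorization, Finset.prod_filter]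

theorem rp_pos (z n : ℕ) : 0 < rp z n := by
  unfold rp
  refine Finset.prod_pos (fun p hp => ?_)
  have := (Nat.prime_of_mem_primeFactors (Finset.mem_filter.1 hp).1).pos
  positivity

theorem sp_pos (z n : ℕ) : 0 < sp z n := by
  unfold sp
  refine Finset.prod_pos (fun p hp => ?_)
  have := (Nat.prime_of_mem_primeFactors (Finset.mem_filter.1 hp).1).pos
  positivity

theorem sp_mul_rp (z : ℕ) {n : ℕ} (h : 0 < n) : sp z n * rp z n = n := by
  unfold sp rp
  have h1 : n.primeFactors.filter (fun p => z < p) =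
      n.primeFactors.filter (fun p => ¬ p ≤ z) := by
    ext p; simp
  rw [h1, Finset.prod_filter_mul_prod_filter_not]
  exact Nat.prod_factorization_pow_eq_self h.ne'

theorem rough_rp (z n : ℕ) : Rough z (rp z n) := by
  intro p hp hd
  unfold rp at hd
  rw [hp.prime.dvd_finsetProd_iff] at hd
  obtain ⟨q, hq, hpq⟩ := hd
  have h1 := (Finset.mem_filter.1 hq)
  have h2 := (Nat.prime_dvd_prime_iff_eq hp (Nat.prime_of_mem_primeFactors h1.1)).1
    (hp.dvd_of_dvd_pow hpq)
  rw [h2]
  exact h1.2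

theorem smooth_sp (z n : ℕ) : Smooth z (sp z n) := by
  intro p hp hd
  unfold sp at hd
  rw [hp.prime.dvd_finsetProd_iff] at hd
  obtain ⟨q, hq, hpq⟩ := hd
  have h1 := (Finset.mem_filter.1 hq)
  have h2 := (Nat.prime_dvd_prime_iff_eq hp (Nat.prime_of_mem_primeFactors h1.1)).1
    (hp.dvd_of_dvd_pow hpq)
  rw [h2]
  exact h1.2

/-- Uniqueness of the factorisation into a smooth and a rough part. -/
theorem sp_rp_of_mul {z a b : ℕ} (ha : Smooth z a) (hb : Rough z b) (ha0 : 0 < a) (hb0 : 0 < b) :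
    sp z (a * b) = a ∧ rp z (a * b) = b := by
  have hab : 0 < a * b := Nat.mul_pos ha0 hb0
  have h1 := sp_mul_rp z hab
  have h2 : Nat.Coprime (sp z (a * b)) b := coprime_of_smooth_rough (smooth_sp z _) hb
  have h3 : Nat.Coprime a (rp z (a * b)) := coprime_of_smooth_rough ha (rough_rp z _)
  have h4 : sp z (a * b) ∣ a := by
    refine h2.dvd_of_dvd_mul_right ?_
    exact ⟨_, h1.symm⟩
  have h5 : a ∣ sp z (a * b) := by
    refine h3.dvd_of_dvd_mul_right ?_
    rw [h1]
    exact dvd_mul_right a b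
  have h6 : sp z (a * b) = a := Nat.dvd_antisymm h4 h5
  refine ⟨h6, ?_⟩
  rw [h6] at h1
  exact Nat.eq_of_mul_eq_mul_left ha0 h1

theorem rp_of_rough {z a : ℕ} (h : Rough z a) (h0 : 0 < a) : rp z a = a := by
  have := (sp_rp_of_mul (smooth_one z) h one_pos h0).2
  rwa [one_mul] at this

theorem sp_of_smooth {z a : ℕ} (h : Smooth z a) (h0 : 0 < a) : sp z a = a := by
  have := (sp_rp_of_mul h (rough_one z) h0 one_pos).1
  rwa [mul_one] at this

theorem rp_of_smooth {z a : ℕ} (h : Smooth z a) (h0 : 0 < a) : rp z a = 1 := by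
  have := (sp_rp_of_mul h (rough_one z) h0 one_pos).2
  rwa [mul_one] at this

theorem sp_of_rough {z a : ℕ} (h : Rough z a) (h0 : 0 < a) : sp z a = 1 := by
  have := (sp_rp_of_mul (smooth_one z) h one_pos h0).1
  rwa [one_mul] at this

theorem rp_mul (z : ℕ) {a b : ℕ} (ha : 0 < a) (hb : 0 < b) : rp z (a * b) = rp z a * rp z b := by
  have h1 : a * b = (sp z a * sp z b) * (rp z a * rp z b) := by
    calc a * b = (sp z a * rp z a) * (sp z b * rp z b) := by
          rw [sp_mul_rp z ha, sp_mul_rp z hb]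
      _ = _ := by ring
  rw [h1]
  exact (sp_rp_of_mul ((smooth_mul _ _ _).2 ⟨smooth_sp _ _, smooth_sp _ _⟩)
    ((rough_mul _ _ _).2 ⟨rough_rp _ _, rough_rp _ _⟩)
    (Nat.mul_pos (sp_pos _ _) (sp_pos _ _)) (Nat.mul_pos (rp_pos _ _) (rp_pos _ _))).2

theorem sp_mul (z : ℕ) {a b : ℕ} (ha : 0 < a) (hb : 0 < b) : sp z (a * b) = sp z a * sp z b := by
  have h1 : a * b = (sp z a * sp z b) * (rp z a * rp z b) := by
    calc a * b = (sp z a * rp z a) * (sp z b * rp z b) := by
          rw [sp_mul_rp z ha, sp_mul_rp z hb]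
      _ = _ := by ring
  rw [h1]
  exact (sp_rp_of_mul ((smooth_mul _ _ _).2 ⟨smooth_sp _ _, smooth_sp _ _⟩)
    ((rough_mul _ _ _).2 ⟨rough_rp _ _, rough_rp _ _⟩)
    (Nat.mul_pos (sp_pos _ _) (sp_pos _ _)) (Nat.mul_pos (rp_pos _ _) (rp_pos _ _))).1

theorem rp_dvd (z n : ℕ) : rp z n ∣ n := by
  rcases Nat.eq_zero_or_pos n with h | h
  · rw [h]; exact dvd_zero _
  · exact ⟨sp z n, by rw [mul_comm, sp_mul_rp z h]⟩

theorem sp_dvd (z n : ℕ) : sp z n ∣ n := by
  rcases Nat.eq_zero_or_pos n with h | h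
  · rw [h]; exact dvd_zero _
  · exact ⟨rp z n, by rw [sp_mul_rp z h]⟩

/-- A rough divisor of `n` divides the rough part. -/
theorem dvd_rp {z e n : ℕ} (he : Rough z e) (hn : 0 < n) : e ∣ n ↔ e ∣ rp z n := by
  constructor
  · intro h
    have h1 : Nat.Coprime (sp z n) e := coprime_of_smooth_rough (smooth_sp z n) he
    refine h1.symm.dvd_of_dvd_mul_left ?_
    rw [sp_mul_rp z hn]
    exact h
  · intro h
    exact h.trans (rp_dvd z n)

theorem good_iff_good_sp {z n : ℕ} (y : ℕ) (hn : 0 < n) : Good y z n ↔ Good y z (sp z n) := by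
  constructor
  · intro h
    exact good_dvd h (sp_dvd z n)
  · intro h
    rw [← sp_mul_rp z hn]
    exact (good_mul _ _ _ _).2 ⟨h, good_of_rough (rough_rp z n)⟩

/-! ## The number of large prime factors -/

theorem Om_one (z : ℕ) : Om z 1 = 0 := by simp [Om]

theorem Om_mul (z : ℕ) {a b : ℕ} (ha : a ≠ 0) (hb : b ≠ 0) :
    Om z (a * b) = Om z a + Om z b := by
  unfold Om
  rw [(Nat.perm_primeFactorsList_mul ha hb).countP_eq, List.countP_append]

theorem Om_prime (z : ℕ) {p : ℕ} (hp : p.Prime) : Om z p = if z < p then 1 else 0 := by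
  unfold Om
  rw [Nat.primeFactorsList_prime hp]
  by_cases h : z < p
  · simp [h]
  · simp [h]

theorem Om_of_smooth {z a : ℕ} (h : Smooth z a) : Om z a = 0 := by
  unfold Om
  rw [List.countP_eq_zero]
  intro p hp
  have h1 := h p (Nat.prime_of_mem_primeFactorsList hp) (Nat.dvd_of_mem_primeFactorsList hp)
  simp only [decide_eq_true_eq]
  omega

theorem Om_eq_Om_rp (z : ℕ) {n : ℕ} (hn : 0 < n) : Om z n = Om z (rp z n) := by
  conv_lhs => rw [← sp_mul_rp z hn]
  rw [Om_mul z (sp_pos z n).ne' (rp_pos z n).ne', Om_of_smooth (smooth_sp z n), zero_add]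

/-- A rough number has at most `2 ^ Om` divisors. -/
theorem card_divisors_rp_le (z n : ℕ) : ((rp z n).divisors.card : ℝ) ≤ 2 ^ Om z (rp z n) := by
  have key : ∀ k : ℕ, 0 < k → Rough z k → k.divisors.card ≤ 2 ^ Om z k := by
    intro k
    induction k using Nat.strong_induction_on with
    | _ k ih =>
      intro hk hr
      by_cases h1 : k = 1
      · subst h1; simp [Om_one]
      · obtain ⟨p, hp, hd⟩ := Nat.exists_prime_and_dvd h1
        obtain ⟨l, rfl⟩ := hd
        have hl : 0 < l := Nat.pos_of_mul_pos_left hk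
        have hlt : l < p * l := by
          have := hp.two_le
          nlinarith
        have h2 := ih l hlt hl ((rough_mul _ _ _).1 hr).2
        rw [Om_mul z hp.ne_zero hl.ne', Om_prime z hp, if_pos (hr p hp (dvd_mul_right p l)),
          pow_add, pow_one]
        calc (p * l).divisors.card ≤ p.divisors.card * l.divisors.card := by
              rw [Nat.divisors_mul]
              exact Finset.card_mul_le
          _ ≤ 2 * 2 ^ Om z l := by
              have h3 : p.divisors.card = 2 := by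
                rw [Nat.Prime.divisors hp, Finset.card_pair hp.one_lt.ne]
              rw [h3]
              exact Nat.mul_le_mul_left 2 h2
  exact_mod_cast key (rp z n) (rp_pos z n) (rough_rp z n)

/-! ## Counting multiples -/

theorem sum_divisors_eq (X : ℕ) (f : ℕ → ℝ) :
    ∑ m ∈ Icc 1 X, ∑ d ∈ m.divisors, f d = ∑ d ∈ Icc 1 X, f d * ((X / d : ℕ) : ℝ) := by
  classical
  have h1 : ∀ m ∈ Icc 1 X, ∑ d ∈ m.divisors, f d = ∑ d ∈ Icc 1 X, if d ∣ m then f d else 0 := by
    intro m hm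
    rw [← Finset.sum_filter]
    refine Finset.sum_congr ?_ (fun _ _ => rfl)
    ext d
    simp only [Nat.mem_divisors, Finset.mem_filter, Finset.mem_Icc] at hm ⊢
    constructor
    · rintro ⟨hd, hm0⟩
      exact ⟨⟨Nat.pos_of_dvd_of_pos hd (by omega), (Nat.le_of_dvd (by omega) hd).trans hm.2⟩, hd⟩
    · rintro ⟨_, hd⟩
      exact ⟨hd, by omega⟩
  rw [Finset.sum_congr rfl h1, Finset.sum_comm]
  refine Finset.sum_congr rfl (fun d hd => ?_)
  rw [← Finset.sum_filter, Finset.sum_const, nsmul_eq_mul, mul_comm]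
  congr 2
  have h2 : (Icc 1 X).filter (fun m => d ∣ m) = (Finset.Ioc 0 X).filter (fun m => d ∣ m) := by
    ext m
    simp only [Finset.mem_filter, Finset.mem_Icc, Finset.mem_Ioc]
    constructor
    · rintro ⟨⟨h3, h4⟩, h5⟩; exact ⟨⟨by omega, h4⟩, h5⟩
    · rintro ⟨⟨h3, h4⟩, h5⟩; exact ⟨⟨by omega, h4⟩, h5⟩
  rw [h2, Nat.Ioc_filter_dvd_card_eq_div]

/-- The harmonic sum. -/
theorem harmonic_le (N : ℕ) : ∑ n ∈ Icc 1 N, 1 / (n : ℝ) ≤ 1 + Real.log N := by
  have h := harmonic_le_one_add_log N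
  have h2 : ((harmonic N : ℚ) : ℝ) = ∑ n ∈ Icc 1 N, 1 / (n : ℝ) := by
    rw [harmonic_eq_sum_Icc]
    push_cast
    simp [one_div]
  rw [← h2]
  exact h

end Pool.Agent.H44.MS
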