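import Pool.Agent.H44.MS.Basics

/-!
# The least coordinate in a representation by three squares: the statement with densities
-/

set_option autoImplicit false

namespace Pool.Agent.H44.MS

open Filter Topology

theorem sum_ic_eq_ncard (P : ℕ → Prop) (N : ℕ) :
    ∑ n ∈ Finset.range N, ic (P n) = (({n | P n} ∩ Set.Iio N).ncard : ℝ) := by
  classical
  rw [sum_ic, ← Set.ncard_coe_finset]
  congr 2
  ext n
  simp only [Finset.coe_filter, Finset.mem_range, Set.mem_ofPred_eq, Set.mem_inter_iff,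
    Set.mem_Iio]
  exact ⟨fun h => ⟨h.2, h.1⟩, fun h => ⟨h.2, h.1⟩⟩

theorem bridge (h : T_RES) (ψ : ℕ → ℝ) (hψ : Tendsto ψ atTop atTop) :
    Tendsto (fun N : ℕ => (({n : ℕ | (n % 4 ≠ 0 ∧ n % 8 ≠ 7) ∧
      ¬ ∃ x₁ x₂ x₃ : ℤ, x₁ ^ 2 + x₂ ^ 2 + x₃ ^ 2 = (n : ℤ) ∧
        |(x₃ : ℝ)| ≤ ψ n * √(Real.log n)} ∩ Set.Iio N).ncard : ℝ) / N) atTop (𝓝 0) ∧
    Tendsto (fun N : ℕ => (({n : ℕ | ∃ x₁ x₂ x₃ : ℤ, x₁ ^ 2 + x₂ ^ 2 + x₃ ^ 2 = (n : ℤ) ∧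
        |(x₃ : ℝ)| ≤ √(Real.log n) / ψ n} ∩ Set.Iio N).ncard : ℝ) / N) atTop (𝓝 0) := by
  obtain ⟨h1, h2⟩ := h ψ hψ
  constructor
  · refine h1.congr (fun N => ?_)
    rw [sum_ic_eq_ncard]
  · refine h2.congr (fun N => ?_)
    rw [sum_ic_eq_ncard]

end Pool.Agent.H44.MS
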