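import Mathlib

/-!
# The least coordinate in a representation by three squares: definitions for the proof
-/

set_option autoImplicit false

namespace Pool.Agent.H44.MS

open Finset Real

/-- The indicator of a proposition. -/
noncomputable def ic (p : Prop) : ℝ := by
  classical exact if p then 1 else 0

/-- The character modulo 4. -/
noncomputable def chi (n : ℕ) : ℝ := ((ZMod.χ₄ (n : ZMod 4) : ℤ) : ℝ)

/-- The Moebius function as a real number. -/
noncomputable def mu (n : ℕ) : ℝ := ((ArithmeticFunction.moebius n : ℤ) : ℝ)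

/-- All prime factors of `n` are larger than `z`. -/
def Rough (z n : ℕ) : Prop := ∀ p : ℕ, p.Prime → p ∣ n → z < p

/-- All prime factors of `n` are at most `z`. -/
def Smooth (z n : ℕ) : Prop := ∀ p : ℕ, p.Prime → p ∣ n → p ≤ z

/-- No prime `p ≡ 3 mod 4` with `y < p ≤ z` divides `n`. -/
def Good (y z n : ℕ) : Prop := ∀ p : ℕ, p.Prime → p % 4 = 3 → y < p → p ≤ z → ¬ p ∣ n

/-- The primes to be sieved out. -/
def A3 (y p : ℕ) : Prop := p % 4 = 3 ∧ y < p

/-- Squarefree numbers all of whose prime factors are at most `z` and satisfy `A`. -/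
def An (A : ℕ → Prop) (z d : ℕ) : Prop :=
  Squarefree d ∧ ∀ p : ℕ, p.Prime → p ∣ d → A p ∧ p ≤ z

/-- No prime `p ≤ z` satisfying `A` divides `m`. -/
def Sv (A : ℕ → Prop) (z m : ℕ) : Prop := ∀ p : ℕ, p.Prime → A p → p ≤ z → ¬ p ∣ m

/-- The product of `1 - 1/p` over the primes `p ≤ z` satisfying `A`. -/
noncomputable def VA (A : ℕ → Prop) (z : ℕ) : ℝ :=
  ∏ p ∈ Icc 1 z, (1 - ic (p.Prime ∧ A p) / p)

/-- The finite set of the primes `p ≤ z` satisfying `A`. -/
noncomputable def PA (A : ℕ → Prop) (z : ℕ) : Finset ℕ := by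
  classical exact (Icc 1 z).filter (fun p => p.Prime ∧ A p)

/-- The block of a prime `p ≤ z`: the largest `i` with `p ^ (2 ^ i) ≤ z`. -/
def bi (z p : ℕ) : ℕ := Nat.log 2 (Nat.log p z)

/-- The number of prime factors of `d` in the block `i`. -/
def om (z i d : ℕ) : ℕ := (d.primeFactors.filter (fun p => bi z p = i)).card

/-- At most `2 (s + i)` prime factors in each block `i`. -/
def Ok (s z d : ℕ) : Prop := ∀ i : ℕ, om z i d ≤ 2 * (s + i)

/-- Exactly `2 (s + i) + 1` prime factors in one block `i`, and at most `2 (s + k)` in each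
other block `k`. -/
def Ok1 (s z d : ℕ) : Prop :=
  ∃ i : ℕ, om z i d = 2 * (s + i) + 1 ∧ ∀ k : ℕ, k ≠ i → om z k d ≤ 2 * (s + k)

/-- The weights of the Brun-Hooley sieve. -/
noncomputable def lam (A : ℕ → Prop) (s z d : ℕ) : ℝ := ic (An A z d ∧ Ok s z d) * mu d

/-- The weights of the majorant of the excess of the Brun-Hooley sieve. -/
noncomputable def kap (A : ℕ → Prop) (s z d : ℕ) : ℝ := -(ic (An A z d ∧ Ok1 s z d) * mu d)

/-- The Brun-Hooley sieve function. -/
noncomputable def th (A : ℕ → Prop) (s z m : ℕ) : ℝ := ∑ d ∈ m.divisors, lam A s z d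

/-- The majorant of the excess. -/
noncomputable def exc (A : ℕ → Prop) (s z m : ℕ) : ℝ := ∑ d ∈ m.divisors, kap A s z d

/-- The part of `n` composed of the primes larger than `z`. -/
def rp (z n : ℕ) : ℕ := ∏ p ∈ n.primeFactors.filter (fun p => z < p), p ^ n.factorization p

/-- The part of `n` composed of the primes at most `z`. -/
def sp (z n : ℕ) : ℕ := ∏ p ∈ n.primeFactors.filter (fun p => p ≤ z), p ^ n.factorization p

/-- The number of prime factors larger than `z`, with multiplicity. -/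
def Om (z n : ℕ) : ℕ := n.primeFactorsList.countP (fun p => decide (z < p))

/-- A quarter of the number of representations of `q` as a sum of two squares. -/
noncomputable def rr (q : ℕ) : ℝ := ∑ e ∈ q.divisors, chi e

/-- The part of the divisor sum with small divisors. -/
noncomputable def RE (z E m : ℕ) : ℝ := ∑ e ∈ m.divisors, ic (Rough z e ∧ e ≤ E) * chi e

/-- The main part of the weight: a short divisor sum. -/
noncomputable def FF (y s z E m : ℕ) : ℝ := 2 * th (A3 y) s z m * RE z E m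

/-- The weight. -/
noncomputable def ff (z m : ℕ) : ℝ := ic (Good 0 z m) * rr (rp z m)

/-- The middle divisors of the rough part. -/
noncomputable def mid (z E m : ℕ) : ℝ :=
  ∑ x ∈ (rp z m).divisorsAntidiagonal, ic (E < x.1 ∧ E < x.2) * chi x.1

/-- The number of middle divisors of the rough part. -/
noncomputable def mdc (z E m : ℕ) : ℝ :=
  ∑ x ∈ (rp z m).divisorsAntidiagonal, ic (E < x.1 ∧ E < x.2)

/-- The divisors of the rough part which are small together with the complementary divisor. -/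
noncomputable def bth (z E m : ℕ) : ℝ :=
  ∑ x ∈ (rp z m).divisorsAntidiagonal, ic (x.1 ≤ E ∧ x.2 ≤ E) * chi x.1

/-- The divisor sum with coefficients `c`. -/
noncomputable def Fc (c : ℕ → ℝ) (m : ℕ) : ℝ := ∑ k ∈ m.divisors, c k

/-- The logarithmic mean of the coefficients over the multiples of `j`. -/
noncomputable def Tc (c : ℕ → ℝ) (K j : ℕ) : ℝ := ∑ k ∈ Icc 1 K, ic (j ∣ k) * c k / k

/-- The distance of two squares. -/
def hh (z₁ z₂ : ℕ) : ℕ := ((z₁ : ℤ) ^ 2 - (z₂ : ℤ) ^ 2).natAbs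

/-- The sum of the common divisors. -/
def sg (j h : ℕ) : ℕ := ∑ i ∈ (Nat.gcd j h).divisors, i

/-- The coefficients of `FF`. -/
noncomputable def cc (y s z E k : ℕ) : ℝ :=
  2 * ∑ x ∈ k.divisorsAntidiagonal, lam (A3 y) s z x.1 * (ic (Rough z x.2 ∧ x.2 ≤ E) * chi x.2)

/-- The sieve factor of the mean value of `FF`. -/
noncomputable def SD (y s z : ℕ) : ℝ := ∑ d ∈ Icc 1 (z ^ (4 * s + 4)), lam (A3 y) s z d / d

/-- The character factor of the mean value of `FF`. -/
noncomputable def AE (z E : ℕ) : ℝ := ∑ e ∈ Icc 1 E, ic (Rough z e) * chi e / e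

/-- The mean value of `FF`. -/
noncomputable def MV (y s z E : ℕ) : ℝ := 2 * SD y s z * AE z E

/-- The admissible values of `n - x₃ ^ 2`. -/
def Cls (y m : ℕ) : Prop := (m % 4 = 1 ∨ m % 8 = 2) ∧ ∀ p : ℕ, p.Prime → p ≠ 2 → p ≤ y → ¬ p ∣ m

/-- A sum over the factorisations `s₀ g a b c ≤ N`, where `s₀` is smooth and not divisible by
primes `3 mod 4`, and the other factors are rough. -/
noncomputable def QS (z N : ℕ) (F : ℕ → ℕ → ℕ → ℕ → ℝ) : ℝ :=
  ∑ s₀ ∈ Icc 1 N, ∑ g ∈ Icc 1 N, ∑ a ∈ Icc 1 N, ∑ b ∈ Icc 1 N, ∑ c ∈ Icc 1 N,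
    ic ((Smooth z s₀ ∧ Good 0 z s₀) ∧ Rough z g ∧ Rough z a ∧ Rough z b ∧ Rough z c ∧
      s₀ * (g * a * b * c) ≤ N) * F g a b c

/-- The relation between the parameters. -/
def Par (s z E N : ℕ) : Prop :=
  z ^ (s ^ 100) ≤ N ∧ N ≤ z ^ (s ^ 100 + 1) ∧ E = Nat.sqrt N / z ^ (4 * s + 5)

/-- The number of values of the small coordinate. -/
def TT (s N : ℕ) : ℕ := s ^ 300 * (Nat.sqrt (Nat.log 2 N) + 1)

end Pool.Agent.H44.MS
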