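import Pool.Agent.H44.MS.Defs

/-!
# The least coordinate in a representation by three squares: the statements of the modules
-/

set_option autoImplicit false

namespace Pool.Agent.H44.MS

open Finset Real

/-! ## Primes -/

/-- The series for `π/4`. -/
def T_L1 : Prop :=
  ∀ n : ℕ, |∑ b ∈ Icc 1 n, chi b / b - π / 4| ≤ 1 / ((n : ℝ) + 1) ∧ |∑ b ∈ Icc 1 n, chi b| ≤ 1

/-- The logarithmic mean of `Λ χ` is bounded. -/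
def T_MC : Prop :=
  ∃ C : ℝ, 0 < C ∧ ∀ n : ℕ, |∑ d ∈ Icc 1 n, ArithmeticFunction.vonMangoldt d * chi d / d| ≤ C

/-- Mertens' theorems. -/
def T_MER : Prop :=
  ∃ C : ℝ, 0 < C ∧ ∀ z x : ℕ, 2 ≤ z → z ≤ x →
    |∑ p ∈ Ioc z x, ic p.Prime / p - (Real.log (Real.log x) - Real.log (Real.log z))| ≤
      C / Real.log z ∧
    |∑ p ∈ Ioc z x, ic p.Prime * chi p / p| ≤ C / Real.log z

/-- Mertens' product, upper bound. -/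
def T_VT : Prop :=
  ∃ C : ℝ, 0 < C ∧ ∀ z : ℕ, 2 ≤ z → VA (fun _ => True) z ≤ C / Real.log z

/-- Mertens' product for the primes `3 mod 4`. -/
def T_VV : Prop :=
  ∃ c C : ℝ, 0 < c ∧ 0 < C ∧ ∀ y z : ℕ, 2 ≤ y → y ≤ z →
    c * √(Real.log y / Real.log z) ≤ VA (A3 y) z ∧ VA (A3 y) z ≤ C * √(Real.log y / Real.log z)

/-- The blocks have bounded logarithmic mass. -/
def T_BL : Prop :=
  ∃ H : ℝ, 0 < H ∧ ∀ z i : ℕ, ∑ p ∈ Icc 1 z, ic (p.Prime ∧ bi z p = i) / p ≤ H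

/-! ## Sums of multiplicative functions -/

/-- The Halberstam-Richert inequality for completely multiplicative functions. -/
def T_HR : Prop :=
  ∀ κ : ℝ, 1 ≤ κ → ∃ C : ℝ, 0 < C ∧ ∀ h : ℕ → ℝ, h 1 = 1 →
    (∀ m n : ℕ, 0 < m → 0 < n → h (m * n) = h m * h n) →
    (∀ p : ℕ, p.Prime → 0 ≤ h p ∧ h p ≤ κ ∧ h p ≤ 3 / 4 * p) →
    ∀ x : ℕ, 2 ≤ x →
      ∑ n ∈ Icc 1 x, h n ≤
        C * x / Real.log x * Real.exp (∑ p ∈ Icc 1 x, ic p.Prime * h p / p)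

/-- The numbers without small prime factors `3 mod 4`. -/
def T_GV : Prop :=
  ∃ C : ℝ, 0 < C ∧ ∀ v : ℝ, 1 / 2 ≤ v → v ≤ 3 / 2 → ∀ z x : ℕ, 2 ≤ z → z ≤ x →
    ∑ n ∈ Icc 1 x, ic (Good 0 z n) * v ^ Om z n ≤
      C * x / √(Real.log z) * (Real.log x / Real.log z) ^ (v - 1)

/-- The numbers without small prime factors. -/
def T_RV : Prop :=
  ∃ C : ℝ, 0 < C ∧ ∀ v : ℝ, 1 / 2 ≤ v → v ≤ 3 / 2 → ∀ z x : ℕ, 2 ≤ z → z ≤ x →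
    ∑ n ∈ Icc 1 x, ic (Rough z n) * v ^ Om z n ≤
      C * x / Real.log z * (Real.log x / Real.log z) ^ (v - 1)

/-- The logarithmic sums over the numbers without small prime factors. -/
def T_RL : Prop :=
  ∃ C : ℝ, 0 < C ∧ ∀ v : ℝ, 1 / 2 ≤ v → v ≤ 3 / 2 → ∀ z x X : ℕ, 2 ≤ z → z ≤ x → x ≤ X →
    Real.log X ≤ 3 * Real.log x →
    ∑ n ∈ Ioc x X, ic (Rough z n) * v ^ Om z n / n ≤
      C * (1 + Real.log ((X : ℝ) / x) / Real.log z) * (Real.log x / Real.log z) ^ (v - 1)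

/-- The logarithmic sum over the numbers without small prime factors. -/
def T_R0 : Prop :=
  ∃ C : ℝ, 0 < C ∧ ∀ z x : ℕ, 2 ≤ z → z ≤ x →
    ∑ n ∈ Icc 1 x, ic (Rough z n) / n ≤ C * (Real.log x / Real.log z)

/-- The logarithmic sum over the smooth numbers without prime factors `3 mod 4`. -/
def T_SG : Prop :=
  ∃ C : ℝ, 0 < C ∧ ∀ z X : ℕ, 2 ≤ z →
    ∑ n ∈ Icc 1 X, ic (Smooth z n ∧ Good 0 z n) / n ≤ C * √(Real.log z)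

/-- The factorisation into the smooth part and the rough part. -/
def T_FA : Prop :=
  ∀ (z N : ℕ) (G : ℕ → ℝ),
    ∑ m ∈ Icc 1 N, ic (Good 0 z m) * G (rp z m) =
      ∑ s₀ ∈ Icc 1 N, ic (Smooth z s₀ ∧ Good 0 z s₀) *
        ∑ q ∈ Icc 1 (N / s₀), ic (Rough z q) * G q

/-! ## The Brun-Hooley sieve -/

/-- Sums over subsets factor over the blocks. -/
def T_BP : Prop :=
  ∀ (P : Finset ℕ) (β : ℕ → ℕ) (I : ℕ), (∀ p ∈ P, β p < I) →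
    (∀ F : ℕ → Finset ℕ → ℝ,
      ∑ T ∈ P.powerset, ∏ i ∈ range I, F i (T.filter (fun p => β p = i)) =
        ∏ i ∈ range I, ∑ U ∈ (P.filter (fun p => β p = i)).powerset, F i U) ∧
    (∀ F : ℕ → Finset ℕ → Finset ℕ → ℝ,
      ∑ T₁ ∈ P.powerset, ∑ T₂ ∈ P.powerset,
          ∏ i ∈ range I, F i (T₁.filter (fun p => β p = i)) (T₂.filter (fun p => β p = i)) =
        ∏ i ∈ range I, ∑ U₁ ∈ (P.filter (fun p => β p = i)).powerset,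
          ∑ U₂ ∈ (P.filter (fun p => β p = i)).powerset, F i U₁ U₂)

/-- Squarefree numbers correspond to sets of primes. -/
def T_TR : Prop :=
  ∀ (A : ℕ → Prop) (z : ℕ),
    (∀ T ∈ (PA A z).powerset, (∏ p ∈ T, p).primeFactors = T ∧ 1 ≤ ∏ p ∈ T, p ∧
      An A z (∏ p ∈ T, p) ∧ mu (∏ p ∈ T, p) = (-1) ^ T.card) ∧
    (∀ (X : ℕ) (F : ℕ → ℝ), ∑ d ∈ Icc 1 X, ic (An A z d) * F d =
      ∑ T ∈ (PA A z).powerset, ic (∏ p ∈ T, p ≤ X) * F (∏ p ∈ T, p)) ∧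
    (∀ (m : ℕ) (F : ℕ → ℝ), 0 < m → ∑ d ∈ m.divisors, ic (An A z d) * F d =
      ∑ T ∈ ((PA A z).filter (fun p => p ∣ m)).powerset, F (∏ p ∈ T, p)) ∧
    VA A z = ∏ p ∈ PA A z, (1 - 1 / (p : ℝ))

/-- The estimates for one block. -/
def T_BK : Prop :=
  ∀ (B : Finset ℕ) (H K : ℝ) (b : ℕ), (∀ p ∈ B, p.Prime) → 1 ≤ K → ∑ p ∈ B, 1 / (p : ℝ) ≤ H →
    (∀ g : Finset ℕ → ℝ, (∀ U ∈ B.powerset, U.card ≤ b → g U = (-1) ^ U.card) →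
      (∀ U ∈ B.powerset, |g U| ≤ K ^ U.card) →
      |∑ U ∈ B.powerset, g U / ∏ p ∈ U, (p : ℝ) - ∏ p ∈ B, (1 - 1 / (p : ℝ))| ≤
        Real.exp (16 * (K + 1) * H) / 16 ^ (b + 1)) ∧
    |∑ U₁ ∈ B.powerset, ∑ U₂ ∈ B.powerset,
        ic (U₁.card ≤ b ∧ U₂.card ≤ b) * (-1) ^ (U₁.card + U₂.card) / ∏ p ∈ U₁ ∪ U₂, (p : ℝ) -
      ∏ p ∈ B, (1 - 1 / (p : ℝ))| ≤ Real.exp (64 * H) / 16 ^ (b + 1) ∧
    (4 : ℝ) ^ (-H) ≤ ∏ p ∈ B, (1 - 1 / (p : ℝ)) ∧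
    ∑ U ∈ B.powerset, ic (U.card = b + 1) / ∏ p ∈ U, (p : ℝ) ≤
      Real.exp (16 * H) / 16 ^ (b + 1) ∧
    (∀ J ∈ B.powerset,
      |∑ U ∈ B.powerset, ic (J ⊆ U ∧ U.card ≤ b) * (-1) ^ U.card / ∏ p ∈ U, (p : ℝ)| ≤
        Real.exp H / ∏ p ∈ J, (p : ℝ))

/-- The level of the weights. -/
def T_LV : Prop :=
  ∀ (A : ℕ → Prop) (s z d : ℕ), 2 ≤ z →
    (An A z d ∧ Ok s z d → d ≤ z ^ (4 * s + 4)) ∧ (An A z d ∧ Ok1 s z d → d ≤ z ^ (4 * s + 5))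

/-- The mean value of the sieve function. -/
def T_DNa : Prop :=
  ∃ S : ℕ, ∀ s : ℕ, S ≤ s → ∀ (A : ℕ → Prop) (z : ℕ), 2 ≤ z →
    |∑ d ∈ Icc 1 (z ^ (4 * s + 4)), lam A s z d / d - VA A z| ≤ VA A z / 2 ^ s

/-- The mean value of the excess. -/
def T_DNb : Prop :=
  ∃ S : ℕ, ∀ s : ℕ, S ≤ s → ∀ (A : ℕ → Prop) (z : ℕ), 2 ≤ z →
    ∑ d ∈ Icc 1 (z ^ (4 * s + 5)), kap A s z d / d ≤ VA A z / 2 ^ s

/-- The mean square of the sieve function. -/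
def T_DNc : Prop :=
  ∃ S : ℕ, ∀ s : ℕ, S ≤ s → ∀ (A : ℕ → Prop) (z : ℕ), 2 ≤ z →
    |∑ d₁ ∈ Icc 1 (z ^ (4 * s + 4)), ∑ d₂ ∈ Icc 1 (z ^ (4 * s + 4)),
      lam A s z d₁ * lam A s z d₂ / (Nat.lcm d₁ d₂ : ℝ)| ≤ 2 * VA A z

/-- The mean value of the sieve function over multiples. -/
def T_DNd : Prop :=
  ∃ C : ℝ, 1 ≤ C ∧ ∃ S : ℕ, ∀ s : ℕ, S ≤ s → ∀ (A : ℕ → Prop) (z : ℕ), 2 ≤ z →
    ∀ j : ℕ, 0 < j →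
      |∑ d ∈ Icc 1 (z ^ (4 * s + 4)), ic (j ∣ d) * lam A s z d / d| ≤
        ic (An A z j) * C ^ (j.primeFactors.card + 1) * VA A z / j

/-- The sieve function is a majorant, and its excess is majorised. -/
def T_TH : Prop :=
  ∀ (A : ℕ → Prop) (s z m : ℕ), 0 < m →
    ic (Sv A z m) ≤ th A s z m ∧ th A s z m - ic (Sv A z m) ≤ exc A s z m

/-! ## The character -/

/-- The character sums over the numbers without small prime factors. -/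
def T_RCC : Prop :=
  ∃ C : ℝ, 0 < C ∧ ∀ z x : ℕ, 2 ≤ z → z ^ 24 ≤ x →
    |∑ b ∈ Icc 1 x, ic (Rough z b) * chi b| ≤
      C * x * ((2 : ℝ) ^ (-(Real.log x / (10 * Real.log z))) / Real.log z +
        (x : ℝ) ^ (-(1 / 4 : ℝ)))

/-- The character factor of the mean value. -/
def T_AA : Prop :=
  ∃ c C : ℝ, 0 < c ∧ 0 < C ∧ ∃ U : ℕ, ∀ z E : ℕ, 2 ≤ z → z ^ U ≤ E → c ≤ AE z E ∧ AE z E ≤ C

/-! ## The middle divisors -/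

/-- The middle divisors of the numbers with few prime factors. -/
def T_B1 : Prop :=
  ∃ C : ℝ, 0 < C ∧ ∀ z E N K : ℕ, 2 ≤ z → z ≤ E → E ^ 2 ≤ N → N ≤ E ^ 3 →
    ∑ m ∈ Icc 1 N, ic (Good 0 z m ∧ Om z m ≤ K) * mdc z E m ≤
      C * N / √(Real.log z) * (1 + Real.log ((N : ℝ) / E ^ 2) / Real.log z) *
        (Real.log z / Real.log N) * 2 ^ K

/-- The identity for the square of the middle part. -/
def T_B2a : Prop :=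
  ∀ z E N : ℕ, 2 ≤ z →
    ∑ m ∈ Icc 1 N, ic (Good 0 z m) * mid z E m ^ 2 =
      QS z N (fun g a b c => ic (Nat.Coprime a b ∧ E < g * a ∧ E < g * b ∧ E < b * c ∧
        E < a * c) * (chi a * chi b))

/-- The part with small `a`, `b`. -/
def T_B2b : Prop :=
  ∃ C : ℝ, 0 < C ∧ ∀ z E N A₀ : ℕ, 2 ≤ z → 8 ≤ A₀ → A₀ * z ≤ E → E ^ 2 ≤ N →
    N * A₀ ^ 4 ≤ E ^ 4 → z ≤ A₀ →
    QS z N (fun g a b c => ic (a ≤ A₀ ∧ b ≤ A₀ ∧ E < g * a ∧ E < g * b ∧ E < b * c ∧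
        E < a * c)) ≤
      C * N / √(Real.log z) * ((Real.log A₀ / Real.log z) ^ 2 *
        (1 + Real.log ((N : ℝ) * A₀ ^ 2 / E ^ 2) / Real.log z))

/-- The part with large `a`, without the coprimality condition. -/
def T_B2c : Prop :=
  ∃ C : ℝ, 0 < C ∧ ∀ (z E N A₀ : ℕ) (R : ℕ → Prop), 2 ≤ z → z ^ 24 ≤ A₀ → A₀ ≤ N →
    |QS z N (fun g a b c => ic (R b ∧ A₀ < a ∧ E < g * a ∧ E < g * b ∧ E < b * c ∧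
        E < a * c) * (chi a * chi b))| ≤
      C * N * ((Real.log N / Real.log z) ^ 3 / √(Real.log z) *
        (2 : ℝ) ^ (-(Real.log A₀ / (10 * Real.log z))) +
        (1 + Real.log N) ^ 4 * (A₀ : ℝ) ^ (-(1 / 4 : ℝ)))

/-- The part without the coprimality condition. -/
def T_B2d : Prop :=
  ∀ z N : ℕ, 1 ≤ z →
    QS z N (fun _ a b _ => ic (¬ Nat.Coprime a b)) ≤ N * (1 + Real.log N) ^ 4 * (2 / z)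

/-- The mean square of the middle part. -/
def T_B2 : Prop :=
  ∃ C : ℝ, 0 < C ∧ ∀ z E N A₀ : ℕ, 2 ≤ z → z ^ 24 ≤ A₀ → A₀ * z ≤ E → E ^ 2 ≤ N →
    N * A₀ ^ 4 ≤ E ^ 4 →
    ∑ m ∈ Icc 1 N, ic (Good 0 z m) * mid z E m ^ 2 ≤
      C * N / √(Real.log z) * ((Real.log A₀ / Real.log z) ^ 2 *
        (1 + Real.log ((N : ℝ) * A₀ ^ 2 / E ^ 2) / Real.log z) +
        (Real.log N / Real.log z) ^ 3 * (2 : ℝ) ^ (-(Real.log A₀ / (10 * Real.log z)))) +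
      C * N * (1 + Real.log N) ^ 4 * (1 / z + (A₀ : ℝ) ^ (-(1 / 4 : ℝ)))

/-- The numbers with many prime factors. -/
def T_B3 : Prop :=
  ∃ C : ℝ, 0 < C ∧ ∀ z N K : ℕ, 2 ≤ z → z ≤ N →
    ∑ m ∈ Icc 1 N, ic (Good 0 z m ∧ K < Om z m) ≤
      C * N / √(Real.log z) * (Real.log N / Real.log z) ^ (3 / 10 : ℝ) * (10 / 13 : ℝ) ^ K

/-- The numbers with a large smooth part. -/
def T_B4 : Prop :=
  ∃ C : ℝ, 0 < C ∧ ∀ z E N₁ N : ℕ, 100 ≤ z → z ≤ N → 0 < N₁ →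
    ∑ m ∈ Ioc N₁ N, ic (Good 0 z m) * |bth z E m| ≤
      C * N / √(Real.log z) * (Real.log N / Real.log z) *
        Real.exp (-(Real.log ((N₁ : ℝ) / E ^ 2) / Real.log z))

/-- The error of the sieve. -/
def T_B5 : Prop :=
  ∃ C : ℝ, 0 < C ∧ ∃ S : ℕ, ∀ s : ℕ, S ≤ s → ∀ y z E N : ℕ, 2 ≤ z → z ≤ E →
    ∑ m ∈ Icc 1 N, (th (A3 y) s z m - ic (Good y z m)) * |RE z E m| ≤
      C * N * (VA (A3 y) z / 2 ^ s) * (Real.log E / Real.log z) + E * z ^ (4 * s + 5)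

/-! ## The weight -/

/-- The weight is nonnegative and detects sums of two squares. -/
def T_PS : Prop :=
  ∀ z m : ℕ, 0 < m → 0 ≤ ff z m ∧ (0 < ff z m → ∃ a b : ℕ, m = a ^ 2 + b ^ 2)

/-- The hyperbola method. -/
def T_HY : Prop :=
  ∀ z E m : ℕ, 2 ≤ z → 0 < m → Good 0 z m → (m % 4 = 1 ∨ m % 8 = 2) →
    rr (rp z m) = 2 * RE z E m + mid z E m - bth z E m

/-- The decomposition of the difference. -/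
def T_BB : Prop :=
  ∀ y s z E N₁ N K : ℕ, 2 ≤ z →
    ∑ m ∈ Ioc N₁ N, ic (Cls y m) * |ff z m - FF y s z E m| ≤
      ∑ m ∈ Icc 1 N, ic (Good 0 z m ∧ Om z m ≤ K) * mdc z E m +
      √((∑ m ∈ Icc 1 N, ic (Good 0 z m ∧ K < Om z m)) *
        ∑ m ∈ Icc 1 N, ic (Good 0 z m) * mid z E m ^ 2) +
      ∑ m ∈ Ioc N₁ N, ic (Good 0 z m) * |bth z E m| +
      2 * ∑ m ∈ Icc 1 N, (th (A3 y) s z m - ic (Good y z m)) * |RE z E m|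

/-- The mean value of the difference. -/
def T_BN : Prop :=
  ∀ ε : ℝ, 0 < ε → ∃ S : ℕ, ∀ s : ℕ, S ≤ s → ∃ Z : ℕ, ∀ z : ℕ, Z ≤ z → ∀ y E N N₁ : ℕ,
    3 ≤ y → y ≤ z → Par s z E N → ε * N ≤ N₁ →
    ∑ m ∈ Ioc N₁ N, ic (Cls y m) * |ff z m - FF y s z E m| ≤
      ε * N * √(Real.log y / Real.log z)

/-- The parameters exist. -/
def T_PAR : Prop :=
  ∀ s Z : ℕ, 1 ≤ s → ∃ N₂ : ℕ, ∀ N : ℕ, N₂ ≤ N → ∃ z E : ℕ, Z ≤ z ∧ Par s z E N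

/-! ## The variance -/

/-- The variance of a divisor sum over shifted squares. -/
def T_VR : Prop :=
  ∀ (c : ℕ → ℝ) (K Q a b T N₀ N : ℕ), 0 < Q →
    (∀ k : ℕ, c k ≠ 0 → 1 ≤ k ∧ k ≤ K ∧ Nat.Coprime k Q) →
    (b + Q * T) ^ 2 < N₀ → N₀ ≤ N →
    ∑ n ∈ Ico N₀ N, ic (n % Q = a % Q) *
        (∑ t ∈ Icc 1 T, Fc c (n - (b + Q * t) ^ 2) - T * Tc c K 1) ^ 2 ≤
      ((N : ℝ) - N₀) / Q *
        (∑ t₁ ∈ Icc 1 T, ∑ t₂ ∈ Icc 1 T, ic (t₁ ≠ t₂) *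
            ∑ j ∈ Icc 2 K, sg j (hh (b + Q * t₁) (b + Q * t₂)) * Tc c K j ^ 2 +
          T * |∑ k₁ ∈ Icc 1 K, ∑ k₂ ∈ Icc 1 K, c k₁ * c k₂ / (Nat.lcm k₁ k₂ : ℝ)|) +
      (T : ℝ) ^ 2 * (∑ k ∈ Icc 1 K, |c k| + |Tc c K 1|) ^ 2

/-- The average of the common divisors. -/
def T_AV : Prop :=
  ∀ κ : ℝ, 1 ≤ κ → ∃ C : ℝ, 0 < C ∧ ∀ y Q b T X : ℕ, 1 ≤ y → 1 ≤ Q → b ≤ Q → 1 ≤ T →
    ∑ t₁ ∈ Icc 1 T, ∑ t₂ ∈ Icc 1 T, ic (t₁ ≠ t₂) *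
        ∑ j ∈ Icc 2 X, ic (Squarefree j ∧ Rough y j ∧ Nat.Coprime j Q) *
          (κ ^ j.primeFactors.card * sg j (hh (b + Q * t₁) (b + Q * t₂)) / (j : ℝ) ^ 2) ≤
      C * (T : ℝ) ^ 2 * (1 / √y + Q * (T : ℝ) ^ (-(1 / 4 : ℝ)))

/-- `FF` is a divisor sum. -/
def T_FD : Prop :=
  (∀ y s z E m : ℕ, FF y s z E m = Fc (cc y s z E) m) ∧
  (∀ y s z E k : ℕ, 2 ≤ z → y ≤ z → cc y s z E k ≠ 0 →
    1 ≤ k ∧ k ≤ z ^ (4 * s + 4) * E ∧ Rough y k) ∧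
  (∀ y s z E : ℕ, 2 ≤ z → ∑ k ∈ Icc 1 (z ^ (4 * s + 4) * E), |cc y s z E k| ≤
    2 * (z : ℝ) ^ (4 * s + 4) * E)

/-- The logarithmic means of the coefficients. -/
def T_TJ : Prop :=
  ∃ C : ℝ, 1 ≤ C ∧ ∃ S : ℕ, ∀ s : ℕ, S ≤ s → ∀ y z E : ℕ, 2 ≤ z → 1 ≤ E →
    Tc (cc y s z E) (z ^ (4 * s + 4) * E) 1 = MV y s z E ∧
    (∀ j : ℕ, 2 ≤ j → j ≤ z → |Tc (cc y s z E) (z ^ (4 * s + 4) * E) j| ≤
      2 * |AE z E| * (ic (An (A3 y) z j) * C ^ (j.primeFactors.card + 1) * VA (A3 y) z / j)) ∧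
    (∀ j : ℕ, 1 ≤ j → |Tc (cc y s z E) (z ^ (4 * s + 4) * E) j| ≤
      2 / j * (1 + Real.log (z ^ (4 * s + 4))) * (1 + Real.log E))

/-- The mean square of the coefficients. -/
def T_DG : Prop :=
  ∃ C : ℝ, 0 < C ∧ ∃ S : ℕ, ∀ s : ℕ, S ≤ s → ∀ y z E : ℕ, 2 ≤ z → z ≤ E →
    |∑ k₁ ∈ Icc 1 (z ^ (4 * s + 4) * E), ∑ k₂ ∈ Icc 1 (z ^ (4 * s + 4) * E),
      cc y s z E k₁ * cc y s z E k₂ / (Nat.lcm k₁ k₂ : ℝ)| ≤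
      C * VA (A3 y) z * (Real.log E / Real.log z) ^ 3

/-- The size of the mean value. -/
def T_MM : Prop :=
  ∃ c C : ℝ, 0 < c ∧ 0 < C ∧ ∃ S U : ℕ, ∀ s : ℕ, S ≤ s → ∀ y z E : ℕ, 2 ≤ y → y ≤ z →
    z ^ U ≤ E →
    c * √(Real.log y / Real.log z) ≤ MV y s z E ∧ MV y s z E ≤ C * √(Real.log y / Real.log z) ∧
    c ≤ AE z E ∧ AE z E ≤ C

/-- The variance. -/
def T_VN : Prop :=
  ∃ C : ℝ, 0 < C ∧ ∃ S : ℕ, ∀ s : ℕ, S ≤ s → ∀ y Q : ℕ, 3 ≤ y → 1 ≤ Q →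
    (∀ p : ℕ, p.Prime → p ∣ Q → p ≤ y) → ∀ ε : ℝ, 0 < ε →
    ∃ N₂ : ℕ, ∀ N : ℕ, N₂ ≤ N → ∀ z E a b N₀ : ℕ, Par s z E N → b ≤ Q →
      (b + Q * TT s N) ^ 2 < N₀ → N₀ ≤ N →
      ∑ n ∈ Ico N₀ N, ic (n % Q = a % Q) *
          (∑ t ∈ Icc 1 (TT s N), FF y s z E (n - (b + Q * t) ^ 2) - TT s N * MV y s z E) ^ 2 ≤
        (C / √y + C / s + ε) * (N / Q) * ((TT s N : ℝ) * MV y s z E) ^ 2

/-! ## The conclusion -/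

/-- The choice of the class of the small coordinate. -/
def T_CL : Prop :=
  ∀ y : ℕ, 3 ≤ y → ∃ Q : ℕ, 1 ≤ Q ∧ (∀ p : ℕ, p.Prime → p ∣ Q → p ≤ y) ∧
    ∀ n : ℕ, n % 4 ≠ 0 → n % 8 ≠ 7 → ∃ b : ℕ, b ≤ Q ∧
      ∀ n' t : ℕ, n' % Q = n % Q → (b + Q * t) ^ 2 < n' → Cls y (n' - (b + Q * t) ^ 2)

/-- The upper bound for the least coordinate. -/
def T_UP : Prop :=
  ∀ ε : ℝ, 0 < ε → ∃ C : ℝ, 0 < C ∧ ∃ N₂ : ℕ, ∀ N : ℕ, N₂ ≤ N →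
    ∑ n ∈ range N, ic ((n % 4 ≠ 0 ∧ n % 8 ≠ 7) ∧
      ¬ ∃ x₁ x₂ x₃ : ℤ, x₁ ^ 2 + x₂ ^ 2 + x₃ ^ 2 = n ∧ |(x₃ : ℝ)| ≤ C * √(Real.log n)) ≤ ε * N

/-- The number of sums of two squares. -/
def T_S2 : Prop :=
  ∃ C : ℝ, 0 < C ∧ ∀ x : ℕ, 2 ≤ x →
    ∑ m ∈ Icc 0 x, ic (∃ a b : ℤ, a ^ 2 + b ^ 2 = (m : ℤ)) ≤ C * x / √(Real.log x)

/-- The lower bound for the least coordinate. -/
def T_LOW : Prop :=
  ∀ ε : ℝ, 0 < ε → ∃ c : ℝ, 0 < c ∧ ∃ N₂ : ℕ, ∀ N : ℕ, N₂ ≤ N →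
    ∑ n ∈ range N, ic (∃ x₁ x₂ x₃ : ℤ, x₁ ^ 2 + x₂ ^ 2 + x₃ ^ 2 = n ∧
      |(x₃ : ℝ)| ≤ c * √(Real.log n)) ≤ ε * N

/-- The final statement. -/
def T_RES : Prop :=
  ∀ ψ : ℕ → ℝ, Filter.Tendsto ψ Filter.atTop Filter.atTop →
    Filter.Tendsto (fun N : ℕ => (∑ n ∈ range N, ic ((n % 4 ≠ 0 ∧ n % 8 ≠ 7) ∧
      ¬ ∃ x₁ x₂ x₃ : ℤ, x₁ ^ 2 + x₂ ^ 2 + x₃ ^ 2 = n ∧
        |(x₃ : ℝ)| ≤ ψ n * √(Real.log n))) / (N : ℝ)) Filter.atTop (nhds 0) ∧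
    Filter.Tendsto (fun N : ℕ => (∑ n ∈ range N, ic (∃ x₁ x₂ x₃ : ℤ,
      x₁ ^ 2 + x₂ ^ 2 + x₃ ^ 2 = n ∧ |(x₃ : ℝ)| ≤ √(Real.log n) / ψ n)) / (N : ℝ))
      Filter.atTop (nhds 0)

end Pool.Agent.H44.MS
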