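import Pool.Agent.H44.MS.Bridge
import Pool.Agent.H94.MS.AA
import Pool.Agent.H86.MS.B1
import Pool.Agent.H24.MS.B2
import Pool.Agent.H4.MS.B2a
import Pool.Agent.H4.MS.B2b
import Pool.Agent.H68.MS.B2c
import Pool.Agent.H14.MS.B2d
import Pool.Agent.H51.MS.B3
import Pool.Agent.H22.MS.B4
import Pool.Agent.H77.MS.B5
import Pool.Agent.H94.MS.BB
import Pool.Agent.H94.MS.BK
import Pool.Agent.H4.MS.BN
import Pool.Agent.H36.MS.BP
import Pool.Agent.H22.MS.CL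
import Pool.Agent.H77.MS.DG
import Pool.Agent.H66.MS.DNa
import Pool.Agent.H3.MS.DNb
import Pool.Agent.H35.MS.DNc
import Pool.Agent.H35.MS.DNd
import Pool.Agent.H36.MS.FA
import Pool.Agent.H14.MS.FD
import Pool.Agent.H84.MS.GV
import Pool.Agent.H50.MS.HR
import Pool.Agent.H34.MS.HY
import Pool.Agent.H19.MS.L1
import Pool.Agent.H95.MS.LOW
import Pool.Agent.H36.MS.LV
import Pool.Agent.H19.MS.MC
import Pool.Agent.H19.MS.MER
import Pool.Agent.H94.MS.MM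
import Pool.Agent.H86.MS.PAR
import Pool.Agent.H47.MS.PS
import Pool.Agent.H3.MS.R0
import Pool.Agent.H81.MS.RCC
import Pool.Agent.H51.MS.RES
import Pool.Agent.H89.MS.RL
import Pool.Agent.H81.MS.S2
import Pool.Agent.H47.MS.TJ
import Pool.Agent.H36.MS.TR
import Pool.Agent.H19.MS.VT
import Pool.Agent.H66.MS.VV
import Pool.Agent.H22.MS.TH
import Pool.Agent.H4.MS.UP
import Pool.Agent.H65.MS.BL
import Pool.Agent.H65.MS.RV
import Pool.Agent.H65.MS.SG
import Pool.Agent.H35.MS.AV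
import Pool.Agent.H71.MS.VR
import Pool.Agent.H99.MS.VN

/-!
# The least coordinate in a representation by three squares: assembly
-/

set_option autoImplicit false

namespace Pool.Agent.H44.MS

theorem all_but
    (pf_VN : T_VR → T_AV → T_FD → T_TJ → T_DG → T_MM → T_VV → T_VN) : T_RES := by
  have L1 : T_L1 := Pool.Agent.H19.MS.pf_L1
  have MC : T_MC := Pool.Agent.H19.MS.pf_MC L1
  have MER : T_MER := Pool.Agent.H19.MS.pf_MER MC
  have VT : T_VT := Pool.Agent.H19.MS.pf_VT MER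
  have VV : T_VV := Pool.Agent.H66.MS.pf_VV MER
  have hBL : T_BL := Pool.Agent.H65.MS.pf_BL MER
  have HR : T_HR := Pool.Agent.H50.MS.pf_HR
  have GV : T_GV := Pool.Agent.H84.MS.pf_GV HR MER
  have hRV : T_RV := Pool.Agent.H65.MS.pf_RV HR MER
  have hSG : T_SG := Pool.Agent.H65.MS.pf_SG MER
  have AV : T_AV := Pool.Agent.H35.MS.pf_AV
  have VR : T_VR := Pool.Agent.H71.MS.pf_VR
  have RL : T_RL := Pool.Agent.H89.MS.pf_RL hRV
  have R0 : T_R0 := Pool.Agent.H3.MS.pf_R0 MER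
  have FA : T_FA := Pool.Agent.H36.MS.pf_FA
  have BP : T_BP := Pool.Agent.H36.MS.pf_BP
  have TR : T_TR := Pool.Agent.H36.MS.pf_TR
  have BK : T_BK := Pool.Agent.H94.MS.pf_BK
  have LV : T_LV := Pool.Agent.H36.MS.pf_LV
  have DNa : T_DNa := Pool.Agent.H66.MS.pf_DNa BP TR BK hBL LV
  have DNb : T_DNb := Pool.Agent.H3.MS.pf_DNb BP TR BK hBL LV
  have DNc : T_DNc := Pool.Agent.H35.MS.pf_DNc BP TR BK hBL LV
  have DNd : T_DNd := Pool.Agent.H35.MS.pf_DNd BP TR BK hBL LV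
  have TH : T_TH := Pool.Agent.H22.MS.pf_TH BP TR
  have RCC : T_RCC := Pool.Agent.H81.MS.pf_RCC TH LV DNb VT hRV
  have AA : T_AA := Pool.Agent.H94.MS.pf_AA RCC L1 MER
  have B1 : T_B1 := Pool.Agent.H86.MS.pf_B1 GV RL
  have B2a : T_B2a := Pool.Agent.H4.MS.pf_B2a FA
  have B2b : T_B2b := Pool.Agent.H4.MS.pf_B2b GV RL R0
  have B2c : T_B2c := Pool.Agent.H68.MS.pf_B2c RCC hSG R0
  have B2d : T_B2d := Pool.Agent.H14.MS.pf_B2d
  have B2 : T_B2 := Pool.Agent.H24.MS.pf_B2 B2a B2b B2c B2d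
  have B3 : T_B3 := Pool.Agent.H51.MS.pf_B3 GV
  have B4 : T_B4 := Pool.Agent.H22.MS.pf_B4 HR MER
  have B5 : T_B5 := Pool.Agent.H77.MS.pf_B5 TH LV DNb R0
  have PS : T_PS := Pool.Agent.H47.MS.pf_PS
  have HY : T_HY := Pool.Agent.H34.MS.pf_HY
  have BB : T_BB := Pool.Agent.H94.MS.pf_BB HY TH
  have BN : T_BN := Pool.Agent.H4.MS.pf_BN B1 B2 B3 B4 B5 BB VV
  have PAR : T_PAR := Pool.Agent.H86.MS.pf_PAR
  have FD : T_FD := Pool.Agent.H14.MS.pf_FD LV
  have TJ : T_TJ := Pool.Agent.H47.MS.pf_TJ DNd LV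
  have DG : T_DG := Pool.Agent.H77.MS.pf_DG DNc LV R0
  have MM : T_MM := Pool.Agent.H94.MS.pf_MM DNa AA VV
  have CL : T_CL := Pool.Agent.H22.MS.CL.pf_CL
  have VN : T_VN := pf_VN VR AV FD TJ DG MM VV
  have UP : T_UP := Pool.Agent.H4.MS.pf_UP BN VN MM PAR CL PS
  have S2 : T_S2 := Pool.Agent.H81.MS.pf_S2 GV
  have LOW : T_LOW := Pool.Agent.H95.MS.pf_LOW S2
  exact Pool.Agent.H51.MS.pf_RES UP LOW

/-- The sharp almost-all theorem, in terms of the internal statement `T_RES`. -/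
theorem main : T_RES := all_but Pool.Agent.H99.MS.pf_VN

end Pool.Agent.H44.MS
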